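import Mathlib
import Pool.Agent.TH487.RP.Alg
import Pool.Agent.TH487.RP.PV
import Pool.Agent.R361.QF.HalfNe
import Pool.Agent.R361.QF.BernHalf

/-!
The half sum of the odd characters of a given order: the norm of the half sum, its divisibility by
powers of `p` and of `2`, and the bounds by Pólya-Vinogradov and by Parseval.
-/

set_option autoImplicit false

namespace Pool.Agent.N895.RO

open Polynomial Finset

/-- a generator of the units modulo `p` and a discrete logarithm on `1, ..., (p-1)/2` -/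
structure Dat (p : ℕ) [Fact p.Prime] where
  γ : (ZMod p)ˣ
  gen : ∀ x, x ∈ Subgroup.zpowers γ
  ord : orderOf γ = p - 1
  ind : ℕ → ℕ
  ind_spec : ∀ a ∈ Icc 1 ((p - 1) / 2), ((γ ^ ind a : (ZMod p)ˣ) : ZMod p) = a

theorem exists_dat (p : ℕ) [hp : Fact p.Prime] : Nonempty (Dat p) := by
  classical
  obtain ⟨γ, hγ⟩ := IsCyclic.exists_generator (α := (ZMod p)ˣ)
  have ho : orderOf γ = p - 1 := by
    rw [orderOf_eq_card_of_forall_mem_zpowers hγ, Nat.card_eq_fintype_card, ZMod.card_units]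
  have h1 : ∀ a : ℕ, ∃ k : ℕ, a ∈ Icc 1 ((p - 1) / 2) → ((γ ^ k : (ZMod p)ˣ) : ZMod p) = a := by
    intro a
    by_cases ha : a ∈ Icc 1 ((p - 1) / 2)
    · rw [mem_Icc] at ha
      have h0 : (a : ZMod p) ≠ 0 := by
        intro h
        rw [ZMod.natCast_eq_zero_iff] at h
        have := Nat.le_of_dvd (by omega) h
        have := hp.out.two_le
        omega
      obtain ⟨u, hu⟩ := isUnit_iff_ne_zero.mpr h0
      have hu' := hγ u
      rw [mem_zpowers_iff_mem_range_orderOf] at hu'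
      rw [mem_image] at hu'
      obtain ⟨k, -, hk⟩ := hu'
      exact ⟨k, fun _ => by rw [hk, hu]⟩
    · exact ⟨0, fun h => absurd h ha⟩
  choose ind hind using h1
  exact ⟨⟨γ, hγ, ho, ind, fun a ha => hind a ha⟩⟩

variable {p : ℕ} [hp : Fact p.Prime] (D : Dat p)

include hp in
theorem half_eq (hp2 : p ≠ 2) : 2 * ((p - 1) / 2) = p - 1 ∧ p % 2 = 1 ∧ 3 ≤ p := by
  have h1 := hp.out.two_le
  rcases hp.out.eq_two_or_odd with h | h
  · omega
  · omega

theorem pow_eq_iff (i j : ℕ) : D.γ ^ i = D.γ ^ j ↔ i ≡ j [MOD (p - 1)] := by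
  rw [pow_eq_pow_iff_modEq, D.ord]

theorem ind_inj (hp2 : p ≠ 2) {a b : ℕ} (ha : a ∈ Icc 1 ((p - 1) / 2)) (hb : b ∈ Icc 1 ((p - 1) / 2))
    (h : D.ind a ≡ D.ind b [MOD ((p - 1) / 2)]) : a = b := by
  obtain ⟨h1, h2, h3⟩ := half_eq (p := p) hp2
  have e1 : 2 * D.ind a ≡ 2 * D.ind b [MOD (p - 1)] := by
    rw [← h1]
    exact Nat.ModEq.mul_left' 2 h
  rw [← pow_eq_iff D, mul_comm 2, mul_comm 2, pow_mul, pow_mul] at e1
  have e2 : (a : ZMod p) ^ 2 = (b : ZMod p) ^ 2 := by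
    rw [← D.ind_spec a ha, ← D.ind_spec b hb]
    exact_mod_cast congrArg Units.val e1
  rw [mem_Icc] at ha hb
  rcases sq_eq_sq_iff_eq_or_eq_neg.1 e2 with e | e
  · rw [ZMod.natCast_eq_natCast_iff] at e
    have := Nat.ModEq.eq_of_lt_of_lt e (by omega) (by omega)
    exact this
  · exfalso
    have e3 : ((a + b : ℕ) : ZMod p) = 0 := by
      push_cast
      rw [e]
      ring
    rw [ZMod.natCast_eq_zero_iff] at e3
    have := Nat.le_of_dvd (by omega) e3
    omega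

theorem sum_ind_mod {R : Type} [AddCommMonoid R] (hp2 : p ≠ 2) (F : ℕ → R) :
    ∑ a ∈ Icc 1 ((p - 1) / 2), F (D.ind a % ((p - 1) / 2)) = ∑ k ∈ range ((p - 1) / 2), F k := by
  classical
  obtain ⟨h1, h2, h3⟩ := half_eq (p := p) hp2
  have hinj : Set.InjOn (fun a => D.ind a % ((p - 1) / 2)) (Icc 1 ((p - 1) / 2) : Finset ℕ) := by
    intro a ha b hb h
    exact ind_inj D hp2 ha hb h
  have him : (Icc 1 ((p - 1) / 2)).image (fun a => D.ind a % ((p - 1) / 2)) =
      range ((p - 1) / 2) := by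
    apply eq_of_subset_of_card_le
    · intro k hk
      rw [mem_image] at hk
      obtain ⟨a, -, rfl⟩ := hk
      rw [mem_range]
      exact Nat.mod_lt _ (by omega)
    · rw [card_image_of_injOn hinj, card_range, Nat.card_Icc]
      omega
  rw [← him, sum_image hinj]

theorem sum_range_mul_mod {R : Type} [AddCommMonoid R] (g e : ℕ) (F : ℕ → R) :
    ∑ k ∈ range (g * e), F (k % e) = g • ∑ c ∈ range e, F c := by
  induction g with
  | zero => simp
  | succ g ih =>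
    rw [Nat.succ_mul, sum_range_add, ih, succ_nsmul]
    congr 1
    refine sum_congr rfl fun c hc => ?_
    rw [Nat.mul_comm, Nat.mul_add_mod, Nat.mod_eq_of_lt (mem_range.1 hc)]

/-- the polynomial whose values at the roots of unity are the half sums -/
noncomputable def P : ℤ[X] := ∑ a ∈ Icc 1 ((p - 1) / 2), X ^ D.ind a

/-- `(1 - X) P / 2` modulo `X^e + 1` -/
noncomputable def Q (g e : ℕ) : ℤ[X] := C (g : ℤ) -
  (1 - X) * ∑ a ∈ Icc 1 ((p - 1) / 2), C (((D.ind a / e) % 2 : ℕ) : ℤ) * X ^ (D.ind a % e)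

theorem two_Q {K : Type} [CommRing K] (hp2 : p ≠ 2) (g e : ℕ) (hge : (p - 1) / 2 = g * e)
    (ρ : K) (hρ : ρ ^ e = -1) :
    2 * (Q D g e).eval₂ (Int.castRingHom K) ρ = (1 - ρ) * (P D).eval₂ (Int.castRingHom K) ρ := by
  unfold Q P
  rw [eval₂_sub, eval₂_mul, eval₂_sub, eval₂_one, eval₂_X, eval₂_finsetSum, eval₂_finsetSum, eval₂_C]
  have h1 : ∀ a ∈ Icc 1 ((p - 1) / 2), (X ^ D.ind a : ℤ[X]).eval₂ (Int.castRingHom K) ρ =
      ρ ^ (D.ind a % e) -
        2 * (C (((D.ind a / e) % 2 : ℕ) : ℤ) * X ^ (D.ind a % e)).eval₂ (Int.castRingHom K) ρ := by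
    intro a _
    rw [eval₂_mul, eval₂_C, eval₂_X_pow, eval₂_X_pow]
    have h2 : ρ ^ D.ind a = (-1) ^ (D.ind a / e) * ρ ^ (D.ind a % e) := by
      conv_lhs => rw [← Nat.div_add_mod (D.ind a) e, pow_add, pow_mul, hρ]
    rw [h2, neg_one_pow_eq_pow_mod_two]
    rcases Nat.mod_two_eq_zero_or_one (D.ind a / e) with h | h
    · rw [h]; simp
    · rw [h]; simp; ring
  rw [sum_congr rfl h1, sum_sub_distrib, ← mul_sum]
  have h3 : ∑ a ∈ Icc 1 ((p - 1) / 2), ρ ^ (D.ind a % e) = g • ∑ c ∈ range e, ρ ^ c := by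
    have h4 := sum_ind_mod D hp2 (fun k => ρ ^ (k % e))
    rw [hge] at h4 ⊢
    have h5 : ∀ k, k % (g * e) % e = k % e := fun k => Nat.mod_mod_of_dvd k (Dvd.intro_left g rfl)
    simp only [h5] at h4
    rw [h4, sum_range_mul_mod g e (fun c => ρ ^ c)]
  rw [h3]
  have h6 : (1 - ρ) * ∑ c ∈ range e, ρ ^ c = 2 := by
    have := mul_neg_geom_sum ρ e
    rw [hρ] at this
    rw [this]
    ring
  rw [mul_sub, mul_sub]
  have h7 : (1 - ρ) * (g • ∑ c ∈ range e, ρ ^ c) = 2 * (g : K) := by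
    rw [nsmul_eq_mul, mul_left_comm, h6, mul_comm]
  rw [h7]
  push_cast
  simp only [eq_intCast, Int.cast_natCast]
  ring

end Pool.Agent.N895.RO
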