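import Mathlib
import Pool.Agent.N895.RO.Basic

set_option autoImplicit false

namespace Pool.Agent.N895.RO

open Polynomial Finset
open Pool.Agent.TH487.RP (MM det_MM pow_dvd_det polya_vinogradov)

variable {p : ℕ} [hp : Fact p.Prime] (D : Dat p)

/-- the value of a half sum polynomial -/
noncomputable def V (ζ : ℂ) : ℂ := (P D).eval₂ (Int.castRingHom ℂ) ζ

theorem V_eq (ζ : ℂ) : V D ζ = ∑ a ∈ Icc 1 ((p - 1) / 2), ζ ^ D.ind a := by
  unfold V P
  rw [eval₂_finsetSum]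
  exact sum_congr rfl fun a _ => by rw [eval₂_X_pow]

theorem gamma_half (hp2 : p ≠ 2) : ((D.γ ^ ((p - 1) / 2) : (ZMod p)ˣ) : ZMod p) = -1 := by
  obtain ⟨h1, h2, h3⟩ := half_eq (p := p) hp2
  have h4 : (((D.γ ^ ((p - 1) / 2) : (ZMod p)ˣ) : ZMod p)) ^ 2 = 1 := by
    rw [← Units.val_pow_eq_pow_val, ← pow_mul, mul_comm, h1, ← D.ord, pow_orderOf_eq_one,
      Units.val_one]
  rcases sq_eq_one_iff.1 h4 with h | h
  · exfalso
    have h5 : D.γ ^ ((p - 1) / 2) = 1 := Units.ext h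
    have h6 := orderOf_dvd_of_pow_eq_one h5
    rw [D.ord] at h6
    have := Nat.le_of_dvd (by omega) h6
    omega
  · exact h

theorem exists_char (hp2 : p ≠ 2) (g e : ℕ) (hg : Odd g) (hge : (p - 1) / 2 = g * e) (ζ : ℂ)
    (hζ : ζ ^ e = -1) : ∃ χ : DirichletCharacter ℂ p, χ.Odd ∧
      V D ζ = ∑ a ∈ Icc 1 ((p - 1) / 2), χ (a : ZMod p) := by
  obtain ⟨h1, h2, h3⟩ := half_eq (p := p) hp2
  have hζ0 : ζ ≠ 0 := by
    rintro rfl
    rcases Nat.eq_zero_or_pos e with h | h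
    · subst h
      rw [Nat.mul_zero] at hge
      omega
    · rw [zero_pow h.ne'] at hζ
      norm_num at hζ
  have hζh : ζ ^ ((p - 1) / 2) = -1 := by
    rw [hge, mul_comm, pow_mul, hζ, hg.neg_one_pow]
  have hζ1 : ζ ^ (p - 1) = 1 := by
    rw [← h1, mul_comm, pow_mul, hζh]
    norm_num
  have hmem : Units.mk0 ζ hζ0 ∈ rootsOfUnity (Fintype.card (ZMod p)ˣ) ℂ := by
    rw [mem_rootsOfUnity, ZMod.card_units]
    apply Units.ext
    rw [Units.val_pow_eq_pow_val, Units.val_mk0, hζ1, Units.val_one]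
  let χ : DirichletCharacter ℂ p := MulChar.ofRootOfUnity hmem D.gen
  have hχ : χ (D.γ : ZMod p) = ζ := MulChar.ofRootOfUnity_spec hmem D.gen
  refine ⟨χ, ?_, ?_⟩
  · unfold DirichletCharacter.Odd
    rw [← gamma_half D hp2, Units.val_pow_eq_pow_val, map_pow, hχ, hζh]
  · rw [V_eq]
    refine sum_congr rfl fun a ha => ?_
    rw [← D.ind_spec a ha, Units.val_pow_eq_pow_val, map_pow, hχ]

theorem V_ne (hp2 : p ≠ 2) (g e : ℕ) (hg : Odd g) (hge : (p - 1) / 2 = g * e) (ζ : ℂ)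
    (hζ : ζ ^ e = -1) : V D ζ ≠ 0 := by
  obtain ⟨h1, h2, h3⟩ := half_eq (p := p) hp2
  obtain ⟨χ, hχ, h⟩ := exists_char D hp2 g e hg hge ζ hζ
  rw [h]
  exact Pool.Agent.R361.QF.half_ne h2 χ hχ

theorem V_le (hp2 : p ≠ 2) (g e : ℕ) (hg : Odd g) (hge : (p - 1) / 2 = g * e) (ζ : ℂ)
    (hζ : ζ ^ e = -1) : ‖V D ζ‖ ≤ Real.sqrt p * Real.log p := by
  obtain ⟨h1, h2, h3⟩ := half_eq (p := p) hp2
  obtain ⟨χ, hχ, h⟩ := exists_char D hp2 g e hg hge ζ hζ
  have hχ1 : χ ≠ 1 := by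
    intro h
    rw [h] at hχ
    unfold DirichletCharacter.Odd at hχ
    rw [MulChar.one_apply (isUnit_one.neg)] at hχ
    norm_num at hχ
  have h4 := polya_vinogradov p hp2 χ hχ1 ((p - 1) / 2 + 1)
  have h5 : ∑ n ∈ range ((p - 1) / 2 + 1), χ ((n : ℕ) : ZMod p) =
      ∑ a ∈ Icc 1 ((p - 1) / 2), χ (a : ZMod p) := by
    have h6 : range ((p - 1) / 2 + 1) = insert 0 (Icc 1 ((p - 1) / 2)) := by
      ext n
      rw [mem_insert, mem_Icc, mem_range]
      omega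
    rw [h6, sum_insert (by rw [mem_Icc]; omega), Nat.cast_zero, MulChar.map_zero, zero_add]
  rw [h, ← h5]
  exact h4

theorem pow_half_neg {K : Type} [CommRing K] [IsDomain K] {ρ : K} {e : ℕ} (he : 0 < e)
    (hρ : IsPrimitiveRoot ρ (2 * e)) : ρ ^ e = -1 := by
  have h1 : (ρ ^ e) ^ 2 = 1 := by
    rw [← pow_mul, mul_comm, hρ.pow_eq_one]
  rcases sq_eq_one_iff.1 h1 with h | h
  · exfalso
    have := hρ.pow_ne_one_of_pos_of_lt he.ne' (by omega)
    exact this h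
  · exact h

theorem prod_one_sub (e : ℕ) (he : 0 < e) :
    ‖∏ ζ ∈ primitiveRoots (2 * e) ℂ, (1 - ζ)‖ ≤ 2 := by
  have h1 := cyclotomic_eq_prod_X_sub_primitiveRoots
    (Complex.isPrimitiveRoot_exp (2 * e) (by omega))
  have h2 : ∏ ζ ∈ primitiveRoots (2 * e) ℂ, (1 - ζ) = eval 1 (cyclotomic (2 * e) ℂ) := by
    rw [h1, eval_prod]
    exact prod_congr rfl fun ζ _ => by rw [eval_sub, eval_X, eval_C]
  rw [h2]
  by_cases h : ∀ {q : ℕ}, q.Prime → ∀ k : ℕ, q ^ k ≠ 2 * e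
  · rw [eval_one_cyclotomic_not_prime_pow h]
    norm_num
  · push Not at h
    obtain ⟨q, hq, k, hk⟩ := h
    have hq2 : q = 2 := by
      have h3 : 2 ∣ q ^ k := by rw [hk]; exact Dvd.intro e rfl
      exact ((Nat.prime_dvd_prime_iff_eq Nat.prime_two hq).1
        (Nat.prime_two.dvd_of_dvd_pow h3)).symm
    subst hq2
    rcases Nat.eq_zero_or_pos k with h0 | h0
    · subst h0
      rw [pow_zero] at hk
      omega
    · obtain ⟨j, rfl⟩ : ∃ j, k = j + 1 := ⟨k - 1, by omega⟩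
      have : Fact (Nat.Prime 2) := ⟨Nat.prime_two⟩
      rw [← hk, eval_one_cyclotomic_prime_pow]
      norm_num

/-- the lower bound for the product of the half sums -/
theorem lower (hp2 : p ≠ 2) (g e : ℕ) (hg : Odd g) (hge : (p - 1) / 2 = g * e)
    (R : Finset (ZMod p)) (hR : ∀ ρ ∈ R, IsPrimitiveRoot ρ (2 * e) ∧
      (P D).eval₂ (Int.castRingHom (ZMod p)) ρ = 0) :
    (p : ℝ) ^ R.card * 2 ^ (2 * e).totient ≤ 2 * ∏ ζ ∈ primitiveRoots (2 * e) ℂ, ‖V D ζ‖ := by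
  obtain ⟨h1, h2, h3⟩ := half_eq (p := p) hp2
  have he : 0 < e := by
    rcases Nat.eq_zero_or_pos e with h | h
    · subst h
      rw [Nat.mul_zero] at hge
      omega
    · exact h
  have hd : 0 < 2 * e := by omega
  have hdp : 2 * e ∣ p - 1 := ⟨g, by rw [← h1, hge]; ring⟩
  have h20 : (2 : ZMod p) ≠ 0 := by
    intro h0
    have : ((2 : ℕ) : ZMod p) = 0 := by exact_mod_cast h0
    rw [ZMod.natCast_eq_zero_iff] at this
    have := Nat.le_of_dvd (by norm_num) this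
    omega
  have hQ : ∀ ρ ∈ R, IsPrimitiveRoot ρ (2 * e) ∧
      (Q D g e).eval₂ (Int.castRingHom (ZMod p)) ρ = 0 := by
    intro ρ hρ
    obtain ⟨h4, h5⟩ := hR ρ hρ
    refine ⟨h4, ?_⟩
    have h6 := two_Q D hp2 g e hge ρ (pow_half_neg he h4)
    rw [h5, mul_zero] at h6
    exact (mul_eq_zero.1 h6).resolve_left h20
  have hdvd := pow_dvd_det p (2 * e) hd hdp (Q D g e) R hQ
  have hdet := det_MM (2 * e) hd (Q D g e)
  have hζQ : ∀ ζ ∈ primitiveRoots (2 * e) ℂ,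
      2 * (Q D g e).eval₂ (Int.castRingHom ℂ) ζ = (1 - ζ) * V D ζ := by
    intro ζ hζ
    rw [mem_primitiveRoots hd] at hζ
    exact two_Q D hp2 g e hge ζ (pow_half_neg he hζ)
  have hne : (MM (2 * e) (Q D g e)).det ≠ 0 := by
    intro h0
    rw [h0, Int.cast_zero] at hdet
    obtain ⟨ζ, hζ, hζ0⟩ := prod_eq_zero_iff.1 hdet.symm
    have h4 := hζQ ζ hζ
    rw [hζ0, mul_zero] at h4
    rw [mem_primitiveRoots hd] at hζ
    have h5 := pow_half_neg he hζ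
    have h6 := V_ne D hp2 g e hg hge ζ h5
    have h7 : (1 : ℂ) - ζ ≠ 0 := by
      intro h
      have : ζ = 1 := by linear_combination -h
      rw [this, one_pow] at h5
      norm_num at h5
    exact (mul_ne_zero h7 h6) h4.symm
  have hge1 : (p : ℝ) ^ R.card ≤ ‖(((MM (2 * e) (Q D g e)).det : ℤ) : ℂ)‖ := by
    have h4 := Int.le_of_dvd (abs_pos.2 hne) ((dvd_abs _ _).2 hdvd)
    have h5 : ‖(((MM (2 * e) (Q D g e)).det : ℤ) : ℂ)‖ =
        (((|(MM (2 * e) (Q D g e)).det| : ℤ)) : ℝ) := by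
      rw [Complex.norm_intCast]
      push_cast
      rfl
    rw [h5]
    exact_mod_cast h4
  have hcard : (primitiveRoots (2 * e) ℂ).card = (2 * e).totient :=
    (Complex.isPrimitiveRoot_exp (2 * e) (by omega)).card_primitiveRoots
  have h4 : ‖(((MM (2 * e) (Q D g e)).det : ℤ) : ℂ)‖ * 2 ^ (2 * e).totient =
      ‖∏ ζ ∈ primitiveRoots (2 * e) ℂ, (1 - ζ)‖ * ∏ ζ ∈ primitiveRoots (2 * e) ℂ, ‖V D ζ‖ := by
    rw [hdet, norm_prod, norm_prod, ← prod_mul_distrib, ← hcard, ← prod_const, ← prod_mul_distrib]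
    refine prod_congr rfl fun ζ hζ => ?_
    have h5 := congrArg norm (hζQ ζ hζ)
    rw [norm_mul, norm_mul, Complex.norm_ofNat] at h5
    rw [mul_comm, h5]
  calc (p : ℝ) ^ R.card * 2 ^ (2 * e).totient ≤
      ‖(((MM (2 * e) (Q D g e)).det : ℤ) : ℂ)‖ * 2 ^ (2 * e).totient := by gcongr
    _ = ‖∏ ζ ∈ primitiveRoots (2 * e) ℂ, (1 - ζ)‖ * ∏ ζ ∈ primitiveRoots (2 * e) ℂ, ‖V D ζ‖ := h4
    _ ≤ 2 * ∏ ζ ∈ primitiveRoots (2 * e) ℂ, ‖V D ζ‖ := by
        apply mul_le_mul_of_nonneg_right (prod_one_sub e he)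
        exact prod_nonneg fun _ _ => norm_nonneg _

/-- the upper bound by Pólya-Vinogradov -/
theorem upper_pv (hp2 : p ≠ 2) (g e : ℕ) (hg : Odd g) (hge : (p - 1) / 2 = g * e) (he : 0 < e) :
    ∏ ζ ∈ primitiveRoots (2 * e) ℂ, ‖V D ζ‖ ≤ (Real.sqrt p * Real.log p) ^ (2 * e).totient := by
  have hcard : (primitiveRoots (2 * e) ℂ).card = (2 * e).totient :=
    (Complex.isPrimitiveRoot_exp (2 * e) (by omega)).card_primitiveRoots
  rw [← hcard, ← prod_const]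
  refine prod_le_prod (fun _ _ => norm_nonneg _) fun ζ hζ => ?_
  rw [mem_primitiveRoots (by omega)] at hζ
  exact V_le D hp2 g e hg hge ζ (pow_half_neg he hζ)

end Pool.Agent.N895.RO
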