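import Mathlib
import Pool.Agent.N895.RO.Norm

set_option autoImplicit false

namespace Pool.Agent.N895.RO

open Polynomial Finset

variable {p : ℕ} [hp : Fact p.Prime] (D : Dat p)

theorem geo_re (e : ℕ) (w : ℂ) (hw : w ^ (2 * e) = 1) :
    (∑ i ∈ range e, w ^ (2 * i + 1)).re ≤ if w = 1 then (e : ℝ) else 0 := by
  have h1 : ∑ i ∈ range e, w ^ (2 * i + 1) = w * ∑ i ∈ range e, (w ^ 2) ^ i := by
    rw [mul_sum]
    refine sum_congr rfl fun i _ => ?_
    rw [← pow_mul, pow_succ, mul_comm]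
  by_cases h2 : w ^ 2 = 1
  · rw [h1, h2]
    simp only [one_pow, sum_const, card_range, nsmul_eq_mul, mul_one]
    rcases sq_eq_one_iff.1 h2 with h | h
    · rw [h]; simp
    · rw [h]
      have : ¬ ((-1 : ℂ) = 1) := by norm_num
      rw [if_neg this]
      simp
  · have h3 : ∑ i ∈ range e, (w ^ 2) ^ i = 0 := by
      rw [geom_sum_eq h2, ← pow_mul, hw, sub_self, zero_div]
    rw [h1, h3, mul_zero, Complex.zero_re]
    split_ifs
    · positivity
    · exact le_rfl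

theorem card_fibre (g : ℕ) (c : ZMod p) (hg : 0 < g) :
    ((Icc 1 ((p - 1) / 2)).filter (fun b : ℕ => (b : ZMod p) ^ g = c)).card ≤ g := by
  classical
  have h1 : ((Icc 1 ((p - 1) / 2)).filter (fun b : ℕ => (b : ZMod p) ^ g = c)).card ≤
      (nthRoots g c).toFinset.card := by
    refine card_le_card_of_injOn (fun b : ℕ => (b : ZMod p)) ?_ ?_
    · intro b hb
      rw [mem_coe, mem_filter] at hb
      rw [mem_coe, Multiset.mem_toFinset, mem_nthRoots hg]
      exact hb.2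
    · intro a ha b hb hab
      rw [mem_coe, mem_filter, mem_Icc] at ha hb
      simp only at hab
      rw [ZMod.natCast_eq_natCast_iff] at hab
      exact Nat.ModEq.eq_of_lt_of_lt hab (by omega) (by omega)
  exact h1.trans ((Multiset.toFinset_card_le _).trans (card_nthRoots g c))

theorem parseval (hp2 : p ≠ 2) (g e : ℕ) (hg : Odd g) (hge : (p - 1) / 2 = g * e) (he : 0 < e) :
    ∑ ζ ∈ primitiveRoots (2 * e) ℂ, ‖V D ζ‖ ^ 2 ≤ ((g : ℝ) * e) ^ 2 := by
  classical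
  obtain ⟨h1, h2, h3⟩ := half_eq (p := p) hp2
  have hξ := Complex.isPrimitiveRoot_exp (2 * e) (by omega)
  set ξ : ℂ := Complex.exp (2 * Real.pi * Complex.I / (2 * e : ℕ)) with hξd
  have hg0 : 0 < g := by
    rcases hg with ⟨k, hk⟩
    omega
  -- primitive roots are odd powers
  have hsub : primitiveRoots (2 * e) ℂ ⊆ (range e).image (fun i => ξ ^ (2 * i + 1)) := by
    intro ζ hζ
    rw [mem_primitiveRoots (by omega)] at hζ
    have hne2 : NeZero (2 * e) := ⟨by omega⟩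
    rw [hξ.isPrimitiveRoot_iff] at hζ
    obtain ⟨i, hi, hco, rfl⟩ := hζ
    rw [mem_image]
    have hodd : i % 2 = 1 := by
      by_contra h
      have h4 : 2 ∣ i := by omega
      have h5 : 2 ∣ Nat.gcd i (2 * e) := Nat.dvd_gcd h4 (Dvd.intro e rfl)
      rw [hco] at h5
      norm_num at h5
    exact ⟨i / 2, by rw [mem_range]; omega, by congr 1; omega⟩
  have hinj : Set.InjOn (fun i => ξ ^ (2 * i + 1)) (range e : Finset ℕ) := by
    intro i hi j hj hij
    rw [mem_coe, mem_range] at hi hj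
    have := hξ.pow_inj (by omega) (by omega) hij
    omega
  have hzn : ∀ a : ℕ, ‖ξ ^ a‖ = 1 := fun a => by
    rw [norm_pow, hξ.norm'_eq_one (by omega), one_pow]
  have step1 : ∑ ζ ∈ primitiveRoots (2 * e) ℂ, ‖V D ζ‖ ^ 2 ≤
      ∑ i ∈ range e, ‖V D (ξ ^ (2 * i + 1))‖ ^ 2 := by
    refine (sum_le_sum_of_subset_of_nonneg hsub fun _ _ _ => by positivity).trans (le_of_eq ?_)
    rw [sum_image hinj]
  let w : ℕ → ℕ → ℂ := fun a b => ξ ^ D.ind a * (starRingEnd ℂ) (ξ ^ D.ind b)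
  have hsq : ∀ i : ℕ, ((‖V D (ξ ^ (2 * i + 1))‖ ^ 2 : ℝ) : ℂ) =
      ∑ a ∈ Icc 1 ((p - 1) / 2), ∑ b ∈ Icc 1 ((p - 1) / 2), w a b ^ (2 * i + 1) := by
    intro i
    rw [Complex.ofReal_pow, ← Complex.mul_conj', V_eq, map_sum, sum_mul_sum]
    refine sum_congr rfl fun a _ => sum_congr rfl fun b _ => ?_
    simp only [w]
    rw [mul_pow, map_pow, map_pow, map_pow, ← pow_mul, ← pow_mul, ← pow_mul, ← pow_mul,
      mul_comm (2 * i + 1), mul_comm (2 * i + 1)]
  have step2 : ∑ i ∈ range e, ‖V D (ξ ^ (2 * i + 1))‖ ^ 2 =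
      ∑ a ∈ Icc 1 ((p - 1) / 2), ∑ b ∈ Icc 1 ((p - 1) / 2),
        (∑ i ∈ range e, w a b ^ (2 * i + 1)).re := by
    have h4 : ((∑ i ∈ range e, ‖V D (ξ ^ (2 * i + 1))‖ ^ 2 : ℝ) : ℂ) =
        ∑ a ∈ Icc 1 ((p - 1) / 2), ∑ b ∈ Icc 1 ((p - 1) / 2),
        (∑ i ∈ range e, w a b ^ (2 * i + 1)) := by
      rw [Complex.ofReal_sum, sum_congr rfl fun i _ => hsq i, sum_comm]
      refine sum_congr rfl fun a _ => ?_
      rw [sum_comm]
    have h5 := congrArg Complex.re h4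
    rw [Complex.ofReal_re] at h5
    rw [h5, Complex.re_sum]
    refine sum_congr rfl fun a _ => ?_
    rw [Complex.re_sum]
  have hw1 : ∀ a b, w a b ^ (2 * e) = 1 := by
    intro a b
    simp only [w]
    rw [mul_pow, ← map_pow, ← pow_mul, ← pow_mul, mul_comm (D.ind a), mul_comm (D.ind b),
      pow_mul ξ (2 * e), pow_mul ξ (2 * e), hξ.pow_eq_one, one_pow, one_pow, map_one, one_mul]
  have hw2 : ∀ a ∈ Icc 1 ((p - 1) / 2), ∀ b ∈ Icc 1 ((p - 1) / 2), w a b = 1 →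
      (b : ZMod p) ^ g = (a : ZMod p) ^ g := by
    intro a ha b hb hab
    simp only [w] at hab
    have h4 : ξ ^ D.ind b * (starRingEnd ℂ) (ξ ^ D.ind b) = 1 := by
      rw [Complex.mul_conj', hzn]
      norm_num
    have h5 : (starRingEnd ℂ) (ξ ^ D.ind b) ≠ 0 := right_ne_zero_of_mul_eq_one h4
    have h6 : ξ ^ D.ind a = ξ ^ D.ind b := mul_right_cancel₀ h5 (hab.trans h4.symm)
    rw [(hξ.isOfFinOrder (by omega)).pow_eq_pow_iff_modEq, ← hξ.eq_orderOf] at h6
    have h7 : D.ind a * g ≡ D.ind b * g [MOD (p - 1)] := by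
      have : p - 1 = 2 * e * g := by rw [← h1, hge]; ring
      rw [this]
      exact Nat.ModEq.mul_right' g h6
    rw [← pow_eq_iff D, pow_mul, pow_mul] at h7
    rw [← D.ind_spec a ha, ← D.ind_spec b hb]
    exact_mod_cast (congrArg Units.val h7).symm
  have step3 : ∀ a ∈ Icc 1 ((p - 1) / 2), ∑ b ∈ Icc 1 ((p - 1) / 2),
        (∑ i ∈ range e, w a b ^ (2 * i + 1)).re ≤ g * e := by
    intro a ha
    calc ∑ b ∈ Icc 1 ((p - 1) / 2), (∑ i ∈ range e, w a b ^ (2 * i + 1)).re ≤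
        ∑ b ∈ Icc 1 ((p - 1) / 2), if w a b = 1 then (e : ℝ) else 0 :=
          sum_le_sum fun b _ => geo_re e _ (hw1 a b)
      _ ≤ ∑ b ∈ Icc 1 ((p - 1) / 2), if (b : ZMod p) ^ g = (a : ZMod p) ^ g then (e : ℝ) else 0 := by
          refine sum_le_sum fun b hb => ?_
          by_cases h : w a b = 1
          · rw [if_pos h, if_pos (hw2 a ha b hb h)]
          · rw [if_neg h]
            split_ifs
            · positivity
            · exact le_rfl
      _ = (((Icc 1 ((p - 1) / 2)).filter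
            (fun b : ℕ => (b : ZMod p) ^ g = (a : ZMod p) ^ g)).card : ℝ) * e := by
          rw [← sum_filter, sum_const, nsmul_eq_mul]
      _ ≤ g * e := by
          gcongr
          exact card_fibre g _ hg0
  calc ∑ ζ ∈ primitiveRoots (2 * e) ℂ, ‖V D ζ‖ ^ 2 ≤ _ := step1
    _ = _ := step2
    _ ≤ ∑ a ∈ Icc 1 ((p - 1) / 2), ((g : ℝ) * e) := sum_le_sum step3
    _ = ((g : ℝ) * e) ^ 2 := by
        rw [sum_const, Nat.card_Icc, Nat.add_sub_cancel, hge, nsmul_eq_mul]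
        push_cast
        ring

/-- the upper bound by Parseval and the inequality of the means -/
theorem upper_pars (hp2 : p ≠ 2) (g e : ℕ) (hg : Odd g) (hge : (p - 1) / 2 = g * e) (he : 0 < e) :
    (∏ ζ ∈ primitiveRoots (2 * e) ℂ, ‖V D ζ‖) ^ 2 ≤
      (((g : ℝ) * e) ^ 2 / (2 * e).totient) ^ (2 * e).totient := by
  have hcard : (primitiveRoots (2 * e) ℂ).card = (2 * e).totient :=
    (Complex.isPrimitiveRoot_exp (2 * e) (by omega)).card_primitiveRoots
  have hφ : 0 < (2 * e).totient := Nat.totient_pos.2 (by omega)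
  have hφ' : (0 : ℝ) < (2 * e).totient := by exact_mod_cast hφ
  have hA := Real.geom_mean_le_arith_mean_weighted (primitiveRoots (2 * e) ℂ)
    (fun _ => ((2 * e).totient : ℝ)⁻¹) (fun ζ => ‖V D ζ‖ ^ 2) (fun _ _ => by positivity)
    (by rw [sum_const, hcard, nsmul_eq_mul]; exact mul_inv_cancel₀ hφ'.ne')
    (fun _ _ => by positivity)
  rw [← mul_sum] at hA
  have hB : ∑ ζ ∈ primitiveRoots (2 * e) ℂ, ‖V D ζ‖ ^ 2 ≤ ((g : ℝ) * e) ^ 2 :=
    parseval D hp2 g e hg hge he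
  have hC : ∏ ζ ∈ primitiveRoots (2 * e) ℂ, (‖V D ζ‖ ^ 2) ^ ((2 * e).totient : ℝ)⁻¹ ≤
      ((g : ℝ) * e) ^ 2 / (2 * e).totient := by
    refine hA.trans ?_
    rw [div_eq_inv_mul]
    gcongr
  have hD := pow_le_pow_left₀ (prod_nonneg fun ζ _ => by positivity) hC (2 * e).totient
  refine le_trans (le_of_eq ?_) hD
  rw [← prod_pow, ← prod_pow]
  refine prod_congr rfl fun ζ _ => ?_
  rw [← Real.rpow_natCast ((‖V D ζ‖ ^ 2) ^ ((2 * e).totient : ℝ)⁻¹), ← Real.rpow_mul (by positivity),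
    inv_mul_cancel₀ hφ'.ne', Real.rpow_one]

end Pool.Agent.N895.RO
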