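import Mathlib
import Pool.Agent.N895.RO.Pars

set_option autoImplicit false

namespace Pool.Agent.N895.RO

open Finset

/-- the irregular indices `i` with `gcd (2 i - 1, p - 1) = g` -/
noncomputable def irr (p g : ℕ) : Finset ℕ :=
  (Icc 1 ((p - 3) / 2)).filter (fun i : ℕ => Nat.gcd (2 * i - 1) (p - 1) = g ∧
    (p : ℤ) ∣ (bernoulli (2 * i)).num)

/-- the regular indices `i` with `gcd (2 i - 1, p - 1) = g` -/
noncomputable def reg (p g : ℕ) : Finset ℕ :=
  (Icc 1 ((p - 3) / 2)).filter (fun i : ℕ => Nat.gcd (2 * i - 1) (p - 1) = g ∧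
    ¬ (p : ℤ) ∣ (bernoulli (2 * i)).num)

theorem exists_R {p : ℕ} [hp : Fact p.Prime] (D : Dat p) (hp2 : p ≠ 2) (g e : ℕ)
    (hg : Odd g) (hge : (p - 1) / 2 = g * e) :
    ∃ R : Finset (ZMod p), R.card = (irr p g).card ∧ ∀ ρ ∈ R, IsPrimitiveRoot ρ (2 * e) ∧
      (P D).eval₂ (Int.castRingHom (ZMod p)) ρ = 0 := by
  classical
  obtain ⟨h1, h2, h3⟩ := half_eq (p := p) hp2
  have hg0 : 0 < g := by
    rcases hg with ⟨k, hk⟩
    omega
  refine ⟨(irr p g).image (fun i => ((D.γ ^ (2 * i - 1) : (ZMod p)ˣ) : ZMod p)), ?_, ?_⟩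
  · rw [card_image_of_injOn]
    intro i hi j hj hij
    simp only at hij
    rw [mem_coe, irr, mem_filter, mem_Icc] at hi hj
    have h4 := Units.ext hij
    rw [pow_eq_iff D] at h4
    have := Nat.ModEq.eq_of_lt_of_lt h4 (by omega) (by omega)
    omega
  · intro ρ hρ
    rw [mem_image] at hρ
    obtain ⟨i, hi, rfl⟩ := hρ
    rw [irr, mem_filter, mem_Icc] at hi
    obtain ⟨⟨hi1, hi2⟩, hi3, hi4⟩ := hi
    constructor
    · rw [IsPrimitiveRoot.coe_units_iff]
      have h4 : orderOf (D.γ ^ (2 * i - 1)) = 2 * e := by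
        rw [orderOf_pow, D.ord, Nat.gcd_comm, hi3]
        have h5 : p - 1 = g * (2 * e) := by rw [← h1, hge]; ring
        rw [h5]
        exact Nat.mul_div_cancel_left _ hg0
      rw [← h4]
      exact IsPrimitiveRoot.orderOf _
    · unfold P
      rw [Polynomial.eval₂_finsetSum]
      have h4 := Pool.Agent.R361.QF.half_pow_sum p h3 (2 * i - 1) (by omega) (by omega)
        (by rw [show 2 * i - 1 + 1 = 2 * i by omega]; exact hi4)
      rw [← h4]
      refine sum_congr rfl fun a ha => ?_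
      rw [Polynomial.eval₂_X_pow, ← D.ind_spec a ha, Units.val_pow_eq_pow_val, Units.val_pow_eq_pow_val,
        ← pow_mul, ← pow_mul, mul_comm]

theorem setup {p g : ℕ} (hp : p.Prime) (hp2 : p ≠ 2) (hg : Odd g) (hgp : g ∣ p - 1) :
    ∃ e : ℕ, 0 < e ∧ (p - 1) / 2 = g * e ∧ (p - 1) / g = 2 * e := by
  have : Fact p.Prime := ⟨hp⟩
  obtain ⟨h1, h2, h3⟩ := half_eq (p := p) hp2
  have hg0 : 0 < g := by
    rcases hg with ⟨k, hk⟩
    omega
  have h4 : g ∣ 2 * ((p - 1) / 2) := by rw [h1]; exact hgp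
  have h5 : Nat.Coprime g 2 := Nat.coprime_two_right.2 hg
  obtain ⟨e, he⟩ := h5.dvd_of_dvd_mul_left h4
  refine ⟨e, ?_, he, ?_⟩
  · rcases Nat.eq_zero_or_pos e with h | h
    · subst h
      rw [Nat.mul_zero] at he
      omega
    · exact h
  · rw [← h1, he, Nat.mul_left_comm]
    exact Nat.mul_div_cancel_left _ hg0

theorem pv_bound {p g : ℕ} (hp : p.Prime) (hp2 : p ≠ 2) (hg : Odd g) (hgp : g ∣ p - 1) :
    (p : ℝ) ^ (2 * (irr p g).card) * 4 ^ ((p - 1) / g).totient ≤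
      4 * (p * Real.log p ^ 2) ^ ((p - 1) / g).totient := by
  have : Fact p.Prime := ⟨hp⟩
  obtain ⟨e, he, h1, h2⟩ := setup hp hp2 hg hgp
  obtain ⟨D⟩ := exists_dat p
  obtain ⟨R, hR1, hR2⟩ := exists_R D hp2 g e hg h1
  have h3 := lower D hp2 g e hg h1 R hR2
  have h4 := upper_pv D hp2 g e hg h1 he
  rw [hR1] at h3
  rw [h2]
  have h5 : (p : ℝ) ^ (irr p g).card * 2 ^ (2 * e).totient ≤
      2 * (Real.sqrt p * Real.log p) ^ (2 * e).totient := h3.trans (by gcongr)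
  have h6 := pow_le_pow_left₀ (by positivity) h5 2
  have h7 : ((p : ℝ) ^ (irr p g).card * 2 ^ (2 * e).totient) ^ 2 =
      (p : ℝ) ^ (2 * (irr p g).card) * 4 ^ (2 * e).totient := by
    rw [mul_pow, ← pow_mul, ← pow_mul, mul_comm _ 2, mul_comm _ 2, pow_mul 2 2]
    norm_num
  have h8 : (2 * (Real.sqrt p * Real.log p) ^ (2 * e).totient) ^ 2 =
      4 * (p * Real.log p ^ 2) ^ (2 * e).totient := by
    rw [mul_pow, ← pow_mul, mul_comm _ 2, pow_mul, mul_pow (Real.sqrt p), Real.sq_sqrt (by positivity)]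
    norm_num
  rw [h7, h8] at h6
  exact h6

theorem pars_bound {p g : ℕ} (hp : p.Prime) (hp2 : p ≠ 2) (hg : Odd g) (hgp : g ∣ p - 1) :
    p ^ (2 * (irr p g).card) * (16 * ((p - 1) / g).totient) ^ ((p - 1) / g).totient ≤
      4 * (p - 1) ^ (2 * ((p - 1) / g).totient) := by
  have : Fact p.Prime := ⟨hp⟩
  obtain ⟨e, he, h1, h2⟩ := setup hp hp2 hg hgp
  obtain ⟨D⟩ := exists_dat p
  obtain ⟨R, hR1, hR2⟩ := exists_R D hp2 g e hg h1
  have h3 := lower D hp2 g e hg h1 R hR2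
  have h4 := upper_pars D hp2 g e hg h1 he
  rw [hR1] at h3
  rw [h2]
  set φ := (2 * e).totient with hφd
  have hφ : 0 < φ := Nat.totient_pos.2 (by omega)
  have hφ' : (0 : ℝ) < φ := by exact_mod_cast hφ
  set A := ∏ ζ ∈ primitiveRoots (2 * e) ℂ, ‖V D ζ‖ with hA
  have h6 := pow_le_pow_left₀ (by positivity) h3 2
  have h7 : ((p : ℝ) ^ (irr p g).card * 2 ^ φ) ^ 2 =
      (p : ℝ) ^ (2 * (irr p g).card) * 4 ^ φ := by
    rw [mul_pow, ← pow_mul, ← pow_mul, mul_comm _ 2, mul_comm _ 2, pow_mul 2 2]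
    norm_num
  rw [h7, mul_pow] at h6
  have h8 : (p : ℝ) ^ (2 * (irr p g).card) * 4 ^ φ ≤ 4 * (((g : ℝ) * e) ^ 2 / φ) ^ φ := by
    refine h6.trans ?_
    have : (2 : ℝ) ^ 2 = 4 := by norm_num
    rw [this]
    gcongr
  have h9 : ((p - 1 : ℕ) : ℝ) = 2 * ((g : ℝ) * e) := by
    have h10 := (half_eq (p := p) hp2).1
    rw [h1] at h10
    rw [← h10]
    push_cast
    ring
  have h10 : (p : ℝ) ^ (2 * (irr p g).card) * (16 * (φ : ℝ)) ^ φ ≤
      4 * ((p - 1 : ℕ) : ℝ) ^ (2 * φ) := by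
    have h11 : (16 * (φ : ℝ)) ^ φ = 4 ^ φ * (4 * (φ : ℝ)) ^ φ := by
      rw [← mul_pow]; ring_nf
    rw [h11, ← mul_assoc]
    calc (p : ℝ) ^ (2 * (irr p g).card) * 4 ^ φ * (4 * (φ : ℝ)) ^ φ ≤
        4 * (((g : ℝ) * e) ^ 2 / φ) ^ φ * (4 * (φ : ℝ)) ^ φ := by gcongr
      _ = 4 * ((p - 1 : ℕ) : ℝ) ^ (2 * φ) := by
          rw [mul_assoc, ← mul_pow, h9, pow_mul (2 * ((g : ℝ) * e))]
          congr 2
          field_simp
          ring
  exact_mod_cast h10

theorem count {p g : ℕ} (hp : p.Prime) (hp2 : p ≠ 2) (hg : Odd g) (hgp : g ∣ p - 1) :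
    (reg p g).card + (irr p g).card + (if g = 1 then 1 else 0) = ((p - 1) / g).totient := by
  classical
  have : Fact p.Prime := ⟨hp⟩
  obtain ⟨h1, h2, h3⟩ := half_eq (p := p) hp2
  have hodd : g % 2 = 1 := Nat.odd_iff.1 hg
  rw [Nat.totient_div_of_dvd hgp]
  have e1 : (reg p g).card + (irr p g).card =
      ((Icc 1 ((p - 3) / 2)).filter (fun i : ℕ => Nat.gcd (2 * i - 1) (p - 1) = g)).card := by
    have h4 := card_filter_add_card_filter_not
      (s := (Icc 1 ((p - 3) / 2)).filter (fun i : ℕ => Nat.gcd (2 * i - 1) (p - 1) = g))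
      (fun i : ℕ => (p : ℤ) ∣ (bernoulli (2 * i)).num)
    rw [filter_filter, filter_filter] at h4
    rw [← h4, add_comm]
    rfl
  have e2 : (((Icc 1 ((p - 1) / 2)).filter (fun i : ℕ => Nat.gcd (2 * i - 1) (p - 1) = g))).card =
      ((range (p - 1)).filter (fun k => (p - 1).gcd k = g)).card := by
    apply card_nbij' (fun i => 2 * i - 1) (fun k => (k + 1) / 2)
    · intro i hi
      rw [mem_coe, mem_filter, mem_Icc] at hi
      rw [mem_coe, mem_filter, mem_range, Nat.gcd_comm]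
      beta_reduce
      exact ⟨by omega, hi.2⟩
    · intro k hk
      rw [mem_coe, mem_filter, mem_range] at hk
      rw [mem_coe, mem_filter, mem_Icc]
      beta_reduce
      have hk1 : k % 2 = 1 := by
        by_contra h
        have h5 : 2 ∣ (p - 1).gcd k := Nat.dvd_gcd (by omega) (by omega)
        rw [hk.2] at h5
        omega
      refine ⟨by omega, ?_⟩
      rw [show 2 * ((k + 1) / 2) - 1 = k by omega, Nat.gcd_comm]
      exact hk.2
    · intro i hi
      rw [mem_coe, mem_filter, mem_Icc] at hi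
      simp only
      omega
    · intro k hk
      rw [mem_coe, mem_filter, mem_range] at hk
      have hk1 : k % 2 = 1 := by
        by_contra h
        have h5 : 2 ∣ (p - 1).gcd k := Nat.dvd_gcd (by omega) (by omega)
        rw [hk.2] at h5
        omega
      simp only
      omega
  rw [e1, ← e2]
  have e3 : Icc 1 ((p - 1) / 2) = insert ((p - 1) / 2) (Icc 1 ((p - 3) / 2)) := by
    ext i
    rw [mem_insert, mem_Icc, mem_Icc]
    omega
  have e4 : Nat.gcd (2 * ((p - 1) / 2) - 1) (p - 1) = 1 := by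
    rw [h1]
    have h5 : p - 1 = (p - 1 - 1) + 1 := by omega
    have h6 : Nat.Coprime (p - 1 - 1) (p - 1 - 1 + 1) := by simp
    rw [← h5] at h6
    exact h6
  have e5 : (p - 1) / 2 ∉ (Icc 1 ((p - 3) / 2)).filter
      (fun i : ℕ => Nat.gcd (2 * i - 1) (p - 1) = g) := by
    rw [mem_filter, mem_Icc]
    omega
  rw [e3, filter_insert, e4]
  by_cases hg1 : g = 1
  · rw [if_pos hg1, if_pos hg1.symm, card_insert_of_notMem e5]
  · rw [if_neg hg1, if_neg (fun h => hg1 h.symm), add_zero]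

theorem half {p g : ℕ} (hp : p.Prime) (hp2 : p ≠ 2) (hg : Odd g) (hgp : g ∣ p - 1)
    (h : Real.log p ^ ((p - 1) / g).totient < 2 ^ (((p - 1) / g).totient - 1) * Real.sqrt p ∨
      p - 1 ≤ 16 * ((p - 1) / g).totient) : 2 * (irr p g).card ≤ ((p - 1) / g).totient := by
  have : Fact p.Prime := ⟨hp⟩
  obtain ⟨h1, h2, h3⟩ := half_eq (p := p) hp2
  obtain ⟨e, he, h4, h5⟩ := setup hp hp2 hg hgp
  have hφ : 0 < ((p - 1) / g).totient := by
    rw [h5]
    exact Nat.totient_pos.2 (by omega)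
  have hpv := pv_bound hp hp2 hg hgp
  have hpa := pars_bound hp hp2 hg hgp
  set φ := ((p - 1) / g).totient with hφd
  set I := (irr p g).card with hI
  by_contra hlt
  push Not at hlt
  have hp0 : (0 : ℝ) < p := by exact_mod_cast hp.pos
  rcases h with h | h
  · have h6 : (p : ℝ) ^ (φ + 1) * 4 ^ φ ≤ 4 * (p * Real.log p ^ 2) ^ φ := by
      refine le_trans ?_ hpv
      gcongr
      · exact_mod_cast hp.one_le
      · omega
    have h7 : (p : ℝ) * 4 ^ φ ≤ 4 * (Real.log p ^ φ) ^ 2 := by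
      rw [mul_pow, pow_succ] at h6
      have h8 : (0 : ℝ) < (p : ℝ) ^ φ := by positivity
      have h9 : (p : ℝ) ^ φ * ((p : ℝ) * 4 ^ φ) ≤ (p : ℝ) ^ φ * (4 * (Real.log p ^ φ) ^ 2) := by
        calc (p : ℝ) ^ φ * ((p : ℝ) * 4 ^ φ) = (p : ℝ) ^ φ * p * 4 ^ φ := by ring
          _ ≤ 4 * ((p : ℝ) ^ φ * (Real.log p ^ 2) ^ φ) := h6
          _ = (p : ℝ) ^ φ * (4 * (Real.log p ^ φ) ^ 2) := by rw [← pow_mul, ← pow_mul, mul_comm 2 φ]; ring
      exact le_of_mul_le_mul_left h9 h8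
    have hl : 0 ≤ Real.log p := Real.log_nonneg (by exact_mod_cast hp.one_le)
    have h10 := pow_lt_pow_left₀ h (by positivity) (two_ne_zero)
    rw [mul_pow, Real.sq_sqrt hp0.le, ← pow_mul 2, mul_comm _ 2, pow_mul] at h10
    have h11 : (4 : ℝ) ^ φ = 4 * (2 ^ 2) ^ (φ - 1) := by
      obtain ⟨k, hk⟩ : ∃ k, φ = k + 1 := ⟨φ - 1, by omega⟩
      rw [hk, pow_succ, Nat.add_sub_cancel]
      norm_num
      ring
    rw [h11] at h7
    nlinarith
  · have h6 : p ^ (φ + 1) * (p - 1) ^ φ ≤ 4 * (p - 1) ^ (2 * φ) := by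
      refine le_trans ?_ hpa
      have h7 : p ^ (φ + 1) ≤ p ^ (2 * I) := Nat.pow_le_pow_right hp.pos (by omega)
      exact Nat.mul_le_mul h7 (Nat.pow_le_pow_left h φ)
    rw [two_mul φ, pow_add (p - 1), ← mul_assoc] at h6
    have h8 : 0 < (p - 1) ^ φ := Nat.pow_pos (by omega)
    have h9 := Nat.le_of_mul_le_mul_right h6 h8
    have h10 : (p - 1) ^ φ ≤ p ^ φ := Nat.pow_le_pow_left (by omega) φ
    rw [pow_succ] at h9
    have h11 : 0 < p ^ φ := Nat.pow_pos hp.pos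
    have h12 : p ^ φ * p ≤ p ^ φ * 4 := by
      calc p ^ φ * p ≤ 4 * (p - 1) ^ φ := h9
        _ ≤ 4 * p ^ φ := Nat.mul_le_mul_left 4 h10
        _ = p ^ φ * 4 := Nat.mul_comm _ _
    have h13 := Nat.le_of_mul_le_mul_left h12 h11
    have h14 : p = 3 := by omega
    have h15 : I = 0 := by
      rw [hI, irr, h14]
      simp
    omega

theorem asym (ε : ℝ) (hε : 0 < ε) : ∃ p₀ : ℕ, ∀ p : ℕ, p₀ ≤ p → p.Prime → ∀ g : ℕ, Odd g →
    g ∣ p - 1 → ((irr p g).card : ℝ) ≤ (1 / 2 + ε) * ((p - 1) / g).totient := by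
  have h1 := (isLittleO_log_rpow_atTop hε).bound (show (0 : ℝ) < 1 / 2 by norm_num)
  have h2 := tendsto_natCast_atTop_atTop (R := ℝ)
  obtain ⟨p₀, hp₀⟩ := Filter.eventually_atTop.1 (h2.eventually h1)
  refine ⟨max p₀ 3, fun p hpp hp g hg hgp => ?_⟩
  have hp3 : 3 ≤ p := (le_max_right _ _).trans hpp
  have hp2 : p ≠ 2 := by omega
  have h3 := hp₀ p ((le_max_left _ _).trans hpp)
  have hp0 : (0 : ℝ) < p := by exact_mod_cast hp.pos
  have hp1 : (1 : ℝ) < p := by exact_mod_cast hp.one_lt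
  have hl : 0 < Real.log p := Real.log_pos hp1
  rw [Real.norm_of_nonneg hl.le, Real.norm_of_nonneg (by positivity)] at h3
  have hlt : Real.log p < (p : ℝ) ^ ε := by
    have : 0 < (p : ℝ) ^ ε := by positivity
    linarith
  have hpv := pv_bound hp hp2 hg hgp
  obtain ⟨e, he, h4, h5⟩ := setup hp hp2 hg hgp
  have hφ : 0 < ((p - 1) / g).totient := by
    rw [h5]
    exact Nat.totient_pos.2 (by omega)
  set φ := ((p - 1) / g).totient with hφd
  set I := (irr p g).card with hI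
  have h6 : (p : ℝ) ^ (2 * I) ≤ (p * Real.log p ^ 2) ^ φ := by
    have h7 : (4 : ℝ) ≤ 4 ^ φ := by
      calc (4 : ℝ) = 4 ^ 1 := by norm_num
        _ ≤ 4 ^ φ := pow_le_pow_right₀ (by norm_num) hφ
    have h8 : 0 ≤ (p : ℝ) ^ (2 * I) := by positivity
    nlinarith
  have h9 : (p * Real.log p ^ 2) ^ φ ≤ ((p : ℝ) ^ (1 + 2 * ε)) ^ φ := by
    refine pow_le_pow_left₀ (by positivity) ?_ φ
    rw [Real.rpow_add hp0, Real.rpow_one, mul_comm 2 ε, Real.rpow_mul hp0.le]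
    have : ((p : ℝ) ^ ε) ^ (2 : ℝ) = ((p : ℝ) ^ ε) ^ 2 := by
      rw [← Real.rpow_natCast]; norm_num
    rw [this]
    gcongr
  have h10 := h6.trans h9
  rw [← Real.rpow_natCast, ← Real.rpow_natCast, ← Real.rpow_mul hp0.le] at h10
  have h11 := (Real.rpow_le_rpow_left_iff hp1).1 h10
  push_cast at h11
  linarith

end Pool.Agent.N895.RO
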